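import Pool.Agent.H948.HS.Stm

/-! Caps have positive measure, hyperplane sections of the sphere are null (HS SIG). -/

set_option autoImplicit false

namespace Pool.Agent.H52.HS

open MeasureTheory ProbabilityTheory Set Filter Metric
open scoped ENNReal NNReal Topology RealInnerProductSpace Pointwise
open Pool.Agent.H948.HS

theorem cap (m : ℕ) (f : E m) (ρ : ℝ) (hf : ‖f‖ = 1) (hρ : 0 < ρ) :
    0 < (sig m).real {x | 1 - ρ < ⟪f, (x : E m)⟫} := by
  have hopen : IsOpen {x : Sp m | 1 - ρ < ⟪f, (x : E m)⟫} := by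
    refine isOpen_lt continuous_const ?_
    fun_prop
  have hne : {x : Sp m | 1 - ρ < ⟪f, (x : E m)⟫}.Nonempty := by
    refine ⟨⟨f, by simpa using hf⟩, ?_⟩
    show 1 - ρ < ⟪f, f⟫
    rw [real_inner_self_eq_norm_sq, hf]
    linarith
  have h1 : 0 < (volume : Measure (E m)).toSphere {x : Sp m | 1 - ρ < ⟪f, (x : E m)⟫} :=
    hopen.measure_pos _ hne
  have h2 : (volume : Measure (E m)).toSphere univ ≠ ⊤ := measure_ne_top _ _
  rw [measureReal_def, ENNReal.toReal_pos_iff]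
  constructor
  · simp only [sig, Measure.smul_apply, smul_eq_mul]
    exact ENNReal.mul_pos (ENNReal.inv_ne_zero.2 h2) h1.ne'
  · exact measure_lt_top _ _

/-- The quadratic form. -/
noncomputable def Q {m : ℕ} (w : E m) (t : ℝ) (y : E m) : ℝ := ⟪w, y⟫ ^ 2 - t ^ 2 * ‖y‖ ^ 2

theorem exists_e (m : ℕ) (w : E m) (t : ℝ) (hm : 1 ≤ m) (hw : w ≠ 0) : ∃ e : E m, Q w t e ≠ 0 := by
  by_cases ht : t = 0
  · refine ⟨w, ?_⟩
    unfold Q
    rw [ht, real_inner_self_eq_norm_sq]
    have : 0 < ‖w‖ := norm_pos_iff.2 hw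
    simp
    exact hw
  · have hd : Fact (Module.finrank ℝ (E m) = m + 1) := ⟨by simp⟩
    have h1 : Module.finrank ℝ (Submodule.span ℝ {w})ᗮ = m :=
      Submodule.finrank_orthogonal_span_singleton hw
    have h2 : 0 < Module.finrank ℝ (Submodule.span ℝ {w})ᗮ := by
      rw [h1]
      omega
    have h3 : Nontrivial (Submodule.span ℝ {w})ᗮ := Module.nontrivial_of_finrank_pos h2
    obtain ⟨⟨e, he⟩, hne⟩ := exists_ne (0 : (Submodule.span ℝ {w})ᗮ)
    have he0 : e ≠ 0 := fun h => hne (Subtype.ext h)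
    refine ⟨e, ?_⟩
    unfold Q
    rw [Submodule.mem_orthogonal_singleton_iff_inner_right.1 he]
    have h4 : 0 < ‖e‖ := norm_pos_iff.2 he0
    have h5 : 0 < t ^ 2 * ‖e‖ ^ 2 := by positivity
    intro h
    linarith

theorem finite_quad (α β γ : ℝ) (h : α ≠ 0) : {x : ℝ | α * x ^ 2 + β * x + γ = 0}.Finite := by
  have hp : (Polynomial.C α * Polynomial.X ^ 2 + Polynomial.C β * Polynomial.X +
      Polynomial.C γ : Polynomial ℝ) ≠ 0 := by
    intro h0
    have := congrArg (fun p : Polynomial ℝ => p.coeff 2) h0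
    simp at this
    exact h this
  refine (Polynomial.finite_setOfPred_isRoot hp).subset fun x hx => ?_
  have hx' : α * x ^ 2 + β * x + γ = 0 := hx
  show Polynomial.IsRoot _ x
  rw [Polynomial.IsRoot.def]
  simpa using hx'

theorem null_Q (m : ℕ) (w : E m) (t : ℝ) (hm : 1 ≤ m) (hw : w ≠ 0) :
    (volume : Measure (E m)) {y | Q w t y = 0} = 0 := by
  obtain ⟨e, he⟩ := exists_e m w t hm hw
  have hmeas : MeasurableSet {y : E m | Q w t y ≠ 0} := by
    have hc : Continuous (fun y : E m => Q w t y) := by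
      unfold Q
      fun_prop
    exact (isOpen_ne_fun hc continuous_const).measurableSet
  have h := ae_mem_of_ae_add_linearMap_mem (LinearMap.toSpanSingleton ℝ (E m) e)
    (volume : Measure ℝ) (volume : Measure (E m)) hmeas (by
      intro y
      have hfin := finite_quad (Q w t e)
        (2 * (⟪w, y⟫ * ⟪w, e⟫) - 2 * t ^ 2 * ⟪y, e⟫) (Q w t y) he
      have h0 : (volume : Measure ℝ) {x : ℝ | Q w t e * x ^ 2 +
          (2 * (⟪w, y⟫ * ⟪w, e⟫) - 2 * t ^ 2 * ⟪y, e⟫) * x + Q w t y = 0} = 0 :=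
        hfin.measure_zero _
      have h1 : ∀ᵐ x ∂(volume : Measure ℝ), x ∉ {x : ℝ | Q w t e * x ^ 2 +
          (2 * (⟪w, y⟫ * ⟪w, e⟫) - 2 * t ^ 2 * ⟪y, e⟫) * x + Q w t y = 0} :=
        measure_eq_zero_iff_ae_notMem.1 h0
      filter_upwards [h1] with x hx hQ
      apply hx
      show Q w t e * x ^ 2 + (2 * (⟪w, y⟫ * ⟪w, e⟫) - 2 * t ^ 2 * ⟪y, e⟫) * x + Q w t y = 0
      have hQ' : Q w t (y + x • e) = 0 := hQ
      rw [← hQ']
      unfold Q
      rw [inner_add_right, inner_smul_right, norm_add_sq_real, inner_smul_right, norm_smul,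
        mul_pow, Real.norm_eq_abs, sq_abs]
      ring)
  rw [ae_iff] at h
  refine measure_mono_null ?_ h
  intro y hy
  show ¬ (Q w t y ≠ 0)
  rw [not_not]
  exact hy

theorem hyp (m : ℕ) (w : E m) (t : ℝ) (hm : 1 ≤ m) (hw : w ≠ 0) :
    sig m {x | ⟪w, (x : E m)⟫ = t} = 0 := by
  have hclosed : IsClosed {x : Sp m | ⟪w, (x : E m)⟫ = t} := by
    refine isClosed_eq ?_ continuous_const
    fun_prop
  have h1 : (volume : Measure (E m)).toSphere {x : Sp m | ⟪w, (x : E m)⟫ = t} = 0 := by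
    rw [Measure.toSphere_apply' _ hclosed.measurableSet]
    have h2 : (volume : Measure (E m)) (Ioo (0 : ℝ) 1 •
        ((fun x : Sp m => (x : E m)) '' {x : Sp m | ⟪w, (x : E m)⟫ = t})) = 0 := by
      refine measure_mono_null ?_ (null_Q m w t hm hw)
      rintro _ ⟨r, hr, _, ⟨x, hx, rfl⟩, rfl⟩
      have hx' : ⟪w, (x : E m)⟫ = t := hx
      show Q w t (r • (x : E m)) = 0
      unfold Q
      rw [inner_smul_right, hx', norm_smul, norm_sp, mul_one, Real.norm_eq_abs, sq_abs]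
      ring
    rw [h2, mul_zero]
  simp only [sig, Measure.smul_apply, smul_eq_mul]
  rw [h1, mul_zero]

theorem s_sig : S_SIG := ⟨cap, hyp⟩

end Pool.Agent.H52.HS
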